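import Mathlib

/-!
# MP_54aac5_co : a cubic graph with fault cost 1

The graph `G` has `32` vertices.  It consists of two copies of a `16`-vertex fragment `A` joined by
two edges.  The fragment has two vertices of degree 2 (`12` and `15`), all the other vertices have
degree 3; it has no Hamiltonian path from `12` to `15`.  Hence neither `G` nor any `G - v` is
Hamiltonian.  On the other hand `G` and all `G - v` with `v ≠ p, q` have a Hamiltonian path from
`p = (0, 2)` to `q = (1, 2)`.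
-/

set_option autoImplicit false

namespace Pool.Agent.Results.MP_54aac5_co.CubicOne

open SimpleGraph

/-! ### Definitions -/

/-- the degree of `v` in `S` -/
noncomputable def deg {V : Type} (S : SimpleGraph V) (v : V) : ℕ := (S.neighborSet v).ncard

/-- the number of leaves (vertices of degree one) of `S` -/
noncomputable def leaves {V : Type} (S : SimpleGraph V) : ℕ := {v | deg S v = 1}.ncard

/-- `S` is a Hamiltonian cycle of `G`: a spanning connected 2-regular subgraph -/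
def IsHamCycle {V : Type} (G S : SimpleGraph V) : Prop :=
  S ≤ G ∧ S.Connected ∧ ∀ v, deg S v = 2

/-- `G` is hamiltonian -/
def Hamiltonian {V : Type} (G : SimpleGraph V) : Prop := ∃ S, IsHamCycle G S

/-- `T` is a spanning tree of `G` -/
def IsSpanningTree {V : Type} (G T : SimpleGraph V) : Prop := T ≤ G ∧ T.IsTree

open Classical in
/-- the minimum leaf number of `G` -/
noncomputable def ml {V : Type} (G : SimpleGraph V) : ℕ :=
  if Hamiltonian G then 1 else sInf {k | ∃ T, IsSpanningTree G T ∧ leaves T = k}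

/-- `S` is an ml-subgraph of `G` -/
def IsMl {V : Type} (G S : SimpleGraph V) : Prop :=
  (Hamiltonian G ∧ IsHamCycle G S) ∨
    (¬ Hamiltonian G ∧ IsSpanningTree G S ∧ leaves S = ml G)

/-- the vertex-deleted subgraph `G - v` -/
def del {V : Type} (G : SimpleGraph V) (v : V) : SimpleGraph {w : V // w ≠ v} :=
  G.comap Subtype.val

/-- the transition cost `τ(S, T)`, where `T` is a graph on the vertices different from `v` -/
noncomputable def tau {V : Type} (S : SimpleGraph V) (v : V) (T : SimpleGraph {w : V // w ≠ v}) :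
    ℕ := {w : {w : V // w ≠ v} | deg S w.1 ≠ deg T w}.ncard

/-- `φ_S(G)` -/
noncomputable def phiS {V : Type} (G S : SimpleGraph V) : ℕ∞ :=
  ⨆ v : V, ⨅ T : {T : SimpleGraph {w : V // w ≠ v} // IsMl (del G v) T}, (tau S v T.1 : ℕ∞)

/-- the fault cost `φ(G)` -/
noncomputable def phi {V : Type} (G : SimpleGraph V) : ℕ∞ :=
  ⨅ S : {S : SimpleGraph V // IsMl G S}, phiS G S.1

/-! ### General lemmas -/

theorem deg_eq_degree {V : Type} [Fintype V] (S : SimpleGraph V) [DecidableRel S.Adj] (v : V) :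
    deg S v = S.degree v := by
  unfold deg
  rw [Set.ncard_eq_toFinset_card', ← SimpleGraph.card_neighborFinset_eq_degree]
  rfl

/-- a Hamiltonian path of `G` from `p` to `q`, as a numbering of the vertices -/
def HPath {W : Type} (G : SimpleGraph W) (p q : W) : Prop :=
  ∃ (n : ℕ) (f : Fin (n + 2) ≃ W), f 0 = p ∧ f (Fin.last _) = q ∧
    ∀ i : Fin (n + 1), G.Adj (f i.castSucc) (f i.succ)

theorem deg_path_zero (n : ℕ) : deg (pathGraph (n + 2)) 0 = 1 := by
  unfold deg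
  have : (pathGraph (n + 2)).neighborSet 0 = {1} := by
    ext j
    simp only [SimpleGraph.mem_neighborSet, pathGraph_adj, Set.mem_singleton_iff, Fin.ext_iff]
    simp only [Fin.val_zero, Fin.val_one]
    omega
  rw [this, Set.ncard_singleton]

theorem deg_path_last (n : ℕ) : deg (pathGraph (n + 2)) (Fin.last _) = 1 := by
  unfold deg
  have : (pathGraph (n + 2)).neighborSet (Fin.last _) = {⟨n, by omega⟩} := by
    ext j
    simp only [SimpleGraph.mem_neighborSet, pathGraph_adj, Set.mem_singleton_iff, Fin.ext_iff,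
      Fin.val_last]
    have := j.2
    omega
  rw [this, Set.ncard_singleton]

theorem deg_path_mid (n : ℕ) (i : Fin (n + 2)) (h0 : i.1 ≠ 0) (h1 : i.1 ≠ n + 1) :
    deg (pathGraph (n + 2)) i = 2 := by
  unfold deg
  have hi := i.2
  have : (pathGraph (n + 2)).neighborSet i =
      {⟨i.1 - 1, by omega⟩, ⟨i.1 + 1, by omega⟩} := by
    ext j
    simp only [SimpleGraph.mem_neighborSet, pathGraph_adj, Set.mem_insert_iff,
      Set.mem_singleton_iff, Fin.ext_iff]
    have := j.2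
    omega
  rw [this, Set.ncard_pair]
  simp only [ne_eq, Fin.ext_iff]
  omega

theorem path_isTree (n : ℕ) : (pathGraph (n + 2)).IsTree := by
  classical
  rw [isTree_iff_connected_and_card]
  refine ⟨pathGraph_connected (n + 1), ?_⟩
  have h := (pathGraph (n + 2)).sum_degrees_eq_twice_card_edges
  have h2 : ∑ v, (pathGraph (n + 2)).degree v = 2 * (n + 1) := by
    have e : ∀ v, (pathGraph (n + 2)).degree v = deg (pathGraph (n + 2)) v :=
      fun v => (deg_eq_degree _ v).symm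
    simp only [e]
    rw [Fin.sum_univ_succ, Fin.sum_univ_castSucc, deg_path_zero]
    have e2 : ∀ i : Fin n, deg (pathGraph (n + 2)) i.castSucc.succ = 2 := by
      intro i
      apply deg_path_mid
      · simp
      · simp only [Fin.val_succ, Fin.val_castSucc]
        have := i.2
        omega
    simp only [e2]
    have e3 : deg (pathGraph (n + 2)) (Fin.last n).succ = 1 := by
      rw [Fin.succ_last]
      exact deg_path_last n
    rw [e3]
    simp
    ring
  rw [h2] at h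
  rw [Nat.card_eq_fintype_card, Nat.card_eq_fintype_card, Fintype.card_fin]
  have h3 : Fintype.card (pathGraph (n + 2)).edgeSet = (pathGraph (n + 2)).edgeFinset.card := by
    rw [← Set.toFinset_card]
    rfl
  rw [h3]
  omega

theorem HPath.tree {W : Type} {G : SimpleGraph W} {p q : W} (h : HPath G p q) :
    ∃ T : SimpleGraph W, T ≤ G ∧ T.IsTree ∧ p ≠ q ∧ deg T p = 1 ∧ deg T q = 1 ∧
      ∀ w, w ≠ p → w ≠ q → deg T w = 2 := by
  obtain ⟨n, f, h0, h1, h⟩ := h
  set T : SimpleGraph W := (pathGraph (n + 2)).comap f.symm with hT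
  have hdeg : ∀ i, deg T (f i) = deg (pathGraph (n + 2)) i := by
    intro i
    unfold deg
    have : T.neighborSet (f i) = f '' ((pathGraph (n + 2)).neighborSet i) := by
      ext w
      rw [Set.mem_image]
      constructor
      · intro hw
        refine ⟨f.symm w, ?_, by simp⟩
        simpa [hT] using hw
      · rintro ⟨j, hj, rfl⟩
        simpa [hT] using hj
    rw [this, Set.ncard_image_of_injective _ f.injective]
  refine ⟨T, ?_, ?_, ?_, ?_, ?_, ?_⟩
  · intro a b hab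
    obtain ⟨i, rfl⟩ := f.surjective a
    obtain ⟨j, rfl⟩ := f.surjective b
    have hij : (pathGraph (n + 2)).Adj i j := by simpa [hT] using hab
    rw [pathGraph_adj] at hij
    rcases hij with hij | hij
    · have hi : i.1 < n + 1 := by have := j.2; omega
      have := h ⟨i.1, hi⟩
      have e1 : (⟨i.1, hi⟩ : Fin (n + 1)).castSucc = i := by ext; simp
      have e2 : (⟨i.1, hi⟩ : Fin (n + 1)).succ = j := by ext; simpa using hij
      rwa [e1, e2] at this
    · have hj : j.1 < n + 1 := by have := i.2; omega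
      have := h ⟨j.1, hj⟩
      have e1 : (⟨j.1, hj⟩ : Fin (n + 1)).castSucc = j := by ext; simp
      have e2 : (⟨j.1, hj⟩ : Fin (n + 1)).succ = i := by ext; simpa using hij
      rw [e1, e2] at this
      exact this.symm
  · have e : T ≃g pathGraph (n + 2) := SimpleGraph.Iso.comap f.symm (pathGraph (n + 2))
    exact e.isTree_iff.mpr (path_isTree n)
  · rw [← h0, ← h1]
    intro hh
    have := f.injective hh
    rw [Fin.ext_iff] at this
    simp at this
  · rw [← h0, hdeg, deg_path_zero]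
  · rw [← h1, hdeg, deg_path_last]
  · intro w hwp hwq
    obtain ⟨i, rfl⟩ := f.surjective w
    rw [hdeg]
    apply deg_path_mid
    · intro hi
      apply hwp
      rw [← h0]
      congr 1
      ext; simpa using hi
    · intro hi
      apply hwq
      rw [← h1]
      congr 1
      ext; simpa using hi

theorem HPath.connected {W : Type} {G : SimpleGraph W} {p q : W} (h : HPath G p q) :
    G.Connected := by
  obtain ⟨T, hT, hc, _⟩ := h.tree
  exact hc.connected.mono hT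

theorem two_le_leaves {W : Type} [Finite W] [Nontrivial W] {T : SimpleGraph W} (h : T.IsTree) :
    2 ≤ leaves T := by
  classical
  have := Fintype.ofFinite W
  obtain ⟨a, b, hab, ha, hb⟩ := h.exists_ne_and_degree_eq_one
  unfold leaves
  have h2 : ({a, b} : Set W) ⊆ {v | deg T v = 1} := by
    intro x hx
    rcases hx with rfl | hx
    · simp only [Set.mem_ofPred_eq]
      rw [deg_eq_degree]
      convert ha
    · rw [Set.mem_singleton_iff] at hx
      subst hx
      simp only [Set.mem_ofPred_eq]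
      rw [deg_eq_degree]
      convert hb
  have := Set.ncard_le_ncard h2 (Set.toFinite _)
  rwa [Set.ncard_pair hab] at this

theorem leaves_eq_two {W : Type} {T : SimpleGraph W} {p q : W} (hpq : p ≠ q) (hp : deg T p = 1)
    (hq : deg T q = 1) (h : ∀ w, w ≠ p → w ≠ q → deg T w = 2) : leaves T = 2 := by
  unfold leaves
  have : {v | deg T v = 1} = {p, q} := by
    ext w
    simp only [Set.mem_ofPred_eq, Set.mem_insert_iff, Set.mem_singleton_iff]
    constructor
    · intro hw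
      by_contra hcon
      push Not at hcon
      have := h w hcon.1 hcon.2
      omega
    · rintro (rfl | rfl) <;> assumption
  rw [this, Set.ncard_pair hpq]

theorem ml_eq_two {W : Type} [Finite W] {G : SimpleGraph W} {p q : W} (hn : ¬ Hamiltonian G)
    (h : HPath G p q) : ml G = 2 := by
  obtain ⟨T, hT, hc, hpq, hp, hq, hr⟩ := h.tree
  have : Nontrivial W := ⟨p, q, hpq⟩
  unfold ml
  rw [if_neg hn]
  have h2 : 2 ∈ {k | ∃ T, IsSpanningTree G T ∧ leaves T = k} :=
    ⟨T, ⟨hT, hc⟩, leaves_eq_two hpq hp hq hr⟩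
  apply le_antisymm (Nat.sInf_le h2)
  apply le_csInf ⟨2, h2⟩
  rintro k ⟨T', hT', rfl⟩
  exact two_le_leaves hT'.2

/-- the sufficient condition for fault cost one -/
theorem phi_eq_one {V : Type} [Finite V] (G : SimpleGraph V) (p q : V) (hpq : p ≠ q)
    (hG : ¬ Hamiltonian G) (hd : ∀ v, ¬ Hamiltonian (del G v)) (hS : HPath G p q)
    (hp : ∃ x, HPath (del G p) ⟨q, hpq.symm⟩ x) (hq : ∃ x, HPath (del G q) ⟨p, hpq⟩ x)
    (h : ∀ (v : V) (hp : p ≠ v) (hq : q ≠ v), HPath (del G v) ⟨p, hp⟩ ⟨q, hq⟩) : phi G = 1 := by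
  have hml : ml G = 2 := ml_eq_two hG hS
  have hmlv : ∀ v, ml (del G v) = 2 := by
    intro v
    by_cases h1 : p = v
    · subst h1
      obtain ⟨x, hx⟩ := hp
      exact ml_eq_two (hd _) hx
    · by_cases h2 : q = v
      · subst h2
        obtain ⟨x, hx⟩ := hq
        exact ml_eq_two (hd _) hx
      · exact ml_eq_two (hd v) (h v h1 h2)
  apply le_antisymm
  · obtain ⟨S, hSG, hc, _, hdp, hdq, hr⟩ := hS.tree
    have hSml : IsMl G S := by
      right
      refine ⟨hG, ⟨hSG, hc⟩, ?_⟩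
      rw [hml, leaves_eq_two hpq hdp hdq hr]
    refine iInf_le_of_le ⟨S, hSml⟩ ?_
    unfold phiS
    refine iSup_le fun v => ?_
    by_cases h1 : p = v
    · subst h1
      obtain ⟨x, hx⟩ := hp
      obtain ⟨T, hTG, hTc, hne, ht1, ht2, htr⟩ := hx.tree
      have hTml : IsMl (del G p) T := by
        right
        refine ⟨hd p, ⟨hTG, hTc⟩, ?_⟩
        rw [hmlv, leaves_eq_two hne ht1 ht2 htr]
      refine iInf_le_of_le ⟨T, hTml⟩ ?_
      have : tau S p T ≤ 1 := by
        unfold tau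
        have hsub : {w : {w : V // w ≠ p} | deg S w.1 ≠ deg T w} ⊆ {x} := by
          intro w hw
          rw [Set.mem_singleton_iff]
          by_contra hwx
          apply hw
          by_cases hwq : w = ⟨q, hpq.symm⟩
          · subst hwq
            rw [ht1]; exact hdq
          · rw [htr w hwq hwx]
            apply hr w.1 w.2
            intro hh
            apply hwq
            exact Subtype.ext hh
        have := Set.ncard_le_ncard hsub (Set.toFinite _)
        rwa [Set.ncard_singleton] at this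
      exact_mod_cast this
    · by_cases h2 : q = v
      · subst h2
        obtain ⟨x, hx⟩ := hq
        obtain ⟨T, hTG, hTc, hne, ht1, ht2, htr⟩ := hx.tree
        have hTml : IsMl (del G q) T := by
          right
          refine ⟨hd q, ⟨hTG, hTc⟩, ?_⟩
          rw [hmlv, leaves_eq_two hne ht1 ht2 htr]
        refine iInf_le_of_le ⟨T, hTml⟩ ?_
        have : tau S q T ≤ 1 := by
          unfold tau
          have hsub : {w : {w : V // w ≠ q} | deg S w.1 ≠ deg T w} ⊆ {x} := by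
            intro w hw
            rw [Set.mem_singleton_iff]
            by_contra hwx
            apply hw
            by_cases hwp : w = ⟨p, hpq⟩
            · subst hwp
              rw [ht1]; exact hdp
            · rw [htr w hwp hwx]
              refine hr w.1 ?_ w.2
              intro hh
              apply hwp
              exact Subtype.ext hh
          have := Set.ncard_le_ncard hsub (Set.toFinite _)
          rwa [Set.ncard_singleton] at this
        exact_mod_cast this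
      · obtain ⟨T, hTG, hTc, hne, ht1, ht2, htr⟩ := (h v h1 h2).tree
        have hTml : IsMl (del G v) T := by
          right
          refine ⟨hd v, ⟨hTG, hTc⟩, ?_⟩
          rw [hmlv, leaves_eq_two hne ht1 ht2 htr]
        refine iInf_le_of_le ⟨T, hTml⟩ ?_
        have : tau S v T = 0 := by
          unfold tau
          have hsub : {w : {w : V // w ≠ v} | deg S w.1 ≠ deg T w} = ∅ := by
            rw [Set.eq_empty_iff_forall_notMem]
            intro w hw
            apply hw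
            by_cases hwp : w = ⟨p, h1⟩
            · subst hwp
              rw [ht1]; exact hdp
            · by_cases hwq : w = ⟨q, h2⟩
              · subst hwq
                rw [ht2]; exact hdq
              · rw [htr w hwp hwq]
                exact hr w.1 (fun hh => hwp (Subtype.ext hh)) (fun hh => hwq (Subtype.ext hh))
          rw [hsub, Set.ncard_empty]
        show ((tau S v T : ℕ) : ℕ∞) ≤ 1
        rw [this]
        simp
  · refine le_iInf fun ⟨S, hSml⟩ => ?_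
    have hS2 : leaves S = 2 := by
      rcases hSml with h1 | h1
      · exact absurd h1.1 hG
      · rw [h1.2.2, hml]
    have hne : {v | deg S v = 1}.Nonempty := by
      rw [Set.nonempty_iff_ne_empty]
      intro h0
      unfold leaves at hS2
      rw [h0, Set.ncard_empty] at hS2
      omega
    obtain ⟨a, ha⟩ := hne
    refine le_iSup_of_le a (le_iInf fun ⟨T, hTml⟩ => ?_)
    have hT2 : leaves T = 2 := by
      rcases hTml with h1 | h1
      · exact absurd h1.1 (hd a)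
      · rw [h1.2.2, hmlv]
    have : tau S a T ≠ 0 := by
      intro h0
      unfold tau at h0
      rw [Set.ncard_eq_zero (Set.toFinite _)] at h0
      have heq : ∀ w : {w : V // w ≠ a}, deg S w.1 = deg T w := by
        intro w
        by_contra hw
        have : w ∈ {w : {w : V // w ≠ a} | deg S w.1 ≠ deg T w} := hw
        rw [h0] at this
        exact this
      have him : Subtype.val '' {w : {w : V // w ≠ a} | deg T w = 1} =
          {v | deg S v = 1} \ {a} := by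
        ext v
        simp only [Set.mem_image, Set.mem_ofPred_eq, Set.mem_sdiff, Set.mem_singleton_iff]
        constructor
        · rintro ⟨w, hw, rfl⟩
          exact ⟨by rw [heq, hw], w.2⟩
        · rintro ⟨hv, hva⟩
          exact ⟨⟨v, hva⟩, by rw [← heq]; exact hv, rfl⟩
      have hc := congrArg Set.ncard him
      rw [Set.ncard_image_of_injective _ Subtype.val_injective,
        Set.ncard_sdiff_singleton_of_mem ha] at hc
      unfold leaves at hS2 hT2
      rw [hS2, hT2] at hc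
      omega
    show (1 : ℕ∞) ≤ ((tau S a T : ℕ) : ℕ∞)
    exact_mod_cast Nat.one_le_iff_ne_zero.mpr this

theorem not_connected_of_closed {W : Type} (S : SimpleGraph W) (T : Set W)
    (hcl : ∀ x ∈ T, ∀ y, S.Adj x y → y ∈ T) {x y : W} (hx : x ∈ T) (hy : y ∉ T) :
    ¬ S.Connected := by
  intro hc
  obtain ⟨w⟩ := hc.preconnected x y
  apply hy
  clear hy
  induction w with
  | nil => exact hx
  | cons h _ ih => exact ih (hcl _ hx _ h)

/-! ### The graph -/

/-- the neighbours in the fragment; the third entries at `12` and `15` are the joining edges -/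
def nb : Fin 16 → Fin 3 → Fin 16 := ![![1, 2, 3], ![0, 2, 4], ![0, 1, 7], ![0, 5, 11], ![1, 6, 14], ![3, 6, 9], ![4, 5, 8], ![2, 8, 9], ![6, 7, 10], ![5, 7, 13], ![8, 11, 15], ![3, 10, 12], ![11, 13, 12], ![9, 12, 14], ![4, 13, 15], ![10, 14, 15]]

/-- the joining edges -/
def cr (i : Fin 16) (k : Fin 3) : Bool := (i == 12 || i == 15) && k == 2

/-- the three neighbours of `(s, i)` -/
def nbr (u : Bool × Fin 16) (k : Fin 3) : Bool × Fin 16 := (xor u.1 (cr u.2 k), nb u.2 k)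

/-- the vertex set: two copies of the fragment -/
abbrev V : Type := Bool × Fin 16

theorem nbr_symm : ∀ (u : V) (k : Fin 3), ∃ l, nbr (nbr u k) l = u := by decide

theorem nbr_ne : ∀ (u : V) (k : Fin 3), nbr u k ≠ u := by decide

theorem nbr_inj : ∀ (u : V), nbr u 0 ≠ nbr u 1 ∧ nbr u 0 ≠ nbr u 2 ∧ nbr u 1 ≠ nbr u 2 := by
  decide

/-- the graph on `32` vertices -/
def G : SimpleGraph V where
  Adj u w := ∃ k, nbr u k = w
  symm := ⟨by
    rintro u w ⟨k, rfl⟩
    exact nbr_symm u k⟩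
  loopless := ⟨by
    rintro u ⟨k, hk⟩
    exact nbr_ne u k hk⟩

instance : DecidableRel G.Adj := fun u w => inferInstanceAs (Decidable (∃ k, nbr u k = w))

theorem G_deg (u : V) : deg G u = 3 := by
  unfold deg
  have : G.neighborSet u = {nbr u 0, nbr u 1, nbr u 2} := by
    ext w
    rw [SimpleGraph.mem_neighborSet]
    simp only [Set.mem_insert_iff, Set.mem_singleton_iff]
    constructor
    · rintro ⟨k, rfl⟩
      fin_cases k <;> simp
    · rintro (rfl | rfl | rfl)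
      exacts [⟨0, rfl⟩, ⟨1, rfl⟩, ⟨2, rfl⟩]
  obtain ⟨h1, h2, h3⟩ := nbr_inj u
  rw [this, Set.ncard_insert_of_notMem, Set.ncard_pair h3]
  simp [h1, h2]

/-! ### No `G - v` is Hamiltonian -/

/-- exactly two of three booleans are true -/
def two (a b c : Bool) : Prop :=
  (a = true ∧ b = true ∧ c = false) ∨ (a = true ∧ b = false ∧ c = true) ∨
    (a = false ∧ b = true ∧ c = true)

instance (a b c : Bool) : Decidable (two a b c) := by unfold two; infer_instance

theorem two_of_ncard {W : Type} [DecidableEq W] (N : Set W) [DecidablePred (· ∈ N)] (a b c : W)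
    (h : ∀ x ∈ N, x = a ∨ x = b ∨ x = c) (hab : a ≠ b)
    (hac : a ≠ c) (hbc : b ≠ c) (h2 : N.ncard = 2) :
    two (decide (a ∈ N)) (decide (b ∈ N)) (decide (c ∈ N)) := by
  have hN : N = ((({a, b, c} : Finset W).filter (· ∈ N) : Finset W) : Set W) := by
    ext x
    simp only [Finset.coe_filter, Finset.mem_insert, Finset.mem_singleton, Set.mem_ofPred_eq]
    constructor
    · intro hx
      exact ⟨h x hx, hx⟩
    · rintro ⟨_, hx⟩
      exact hx
  have h3 : (({a, b, c} : Finset W).filter (· ∈ N)).card = 2 := by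
    rw [← Set.ncard_coe_finset, ← hN, h2]
  by_cases ha : a ∈ N <;> by_cases hb : b ∈ N <;> by_cases hc : c ∈ N <;>
    simp [Finset.filter_insert, Finset.filter_singleton, two, ha, hb, hc, hab, hac, hbc] at h3 ⊢

set_option synthInstance.maxSize 100000 in
set_option synthInstance.maxHeartbeats 4000000 in
theorem key :
  ∀ x0 x1 x2 : Bool, two x0 x1 x2 →
  ∀ x3 x4 : Bool, two x0 x3 x4 →
  ∀ x5 : Bool, two x1 x3 x5 →
  ∀ x6 x7 : Bool, two x2 x6 x7 →
  ∀ x8 x9 : Bool, two x4 x8 x9 →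
  ∀ x10 x11 : Bool, two x6 x10 x11 →
  ∀ x12 : Bool, two x8 x10 x12 →
  ∀ x13 x14 : Bool, two x5 x13 x14 →
  ∀ x15 : Bool, two x12 x13 x15 →
  ∀ x16 : Bool, two x11 x14 x16 →
  ∀ x17 x18 : Bool, two x15 x17 x18 →
  ∀ x19 : Bool, two x7 x17 x19 →
  ∀ x20 x23 : Bool, two x19 x20 x23 →
  ∀ x21 : Bool, two x16 x20 x21 →
  ∀ x22 : Bool, two x9 x21 x22 →
  ∀ x24 : Bool, two x18 x22 x24 →
  (x23 = false ∧ x24 = false) ∨
  (x2 = false ∧ x4 = false ∧ x5 = false) ∨
  (x7 = false ∧ x15 = false ∧ x20 = false ∧ x22 = false) ∨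
  (x9 = false ∧ x16 = false ∧ x18 = false ∧ x19 = false) ∨
  (x5 = false ∧ x6 = false ∧ x8 = false ∧ x15 = false ∧ x16 = false) ∨
  (x4 = false ∧ x6 = false ∧ x12 = false ∧ x14 = false ∧ x20 = false ∧ x22 = false) ∨
  (x2 = false ∧ x8 = false ∧ x11 = false ∧ x13 = false ∧ x18 = false ∧ x19 = false) ∨
  (x5 = false ∧ x7 = false ∧ x9 = false ∧ x11 = false ∧ x12 = false) ∨
  (x2 = false ∧ x8 = false ∧ x11 = false ∧ x13 = false ∧ x20 = false ∧ x22 = false) ∨
  (x4 = false ∧ x6 = false ∧ x12 = false ∧ x14 = false ∧ x18 = false ∧ x19 = false) := by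
  decide

/-- the numbering of the edges touching a copy of the fragment -/
def eix : Fin 16 → Fin 3 → Fin 25 := ![![0, 1, 2], ![0, 3, 4], ![1, 3, 5], ![2, 6, 7], ![4, 8, 9], ![6, 10, 11], ![8, 10, 12], ![5, 13, 14], ![12, 13, 15], ![11, 14, 16], ![15, 17, 18], ![7, 17, 19], ![19, 20, 23], ![16, 20, 21], ![9, 21, 22], ![18, 22, 24]]

/-- a representative of every edge -/
def src : Fin 25 → Fin 16 × Fin 3 := ![(0, 0), (0, 1), (0, 2), (1, 1), (1, 2), (2, 2), (3, 1), (3, 2), (4, 1), (4, 2), (5, 1), (5, 2), (6, 2), (7, 1), (7, 2), (8, 2), (9, 2), (10, 1), (10, 2), (11, 2), (12, 1), (13, 2), (14, 2), (12, 2), (15, 2)]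

/-- the closed sets -/
def Ts : Fin 10 → Finset (Fin 16) := ![{0, 1, 2, 3, 4, 5, 6, 7, 8, 9, 10, 11, 12, 13, 14, 15},
  {0, 1, 2},
  {0, 1, 2, 3, 4, 5, 6, 7, 8, 9, 13, 14},
  {0, 1, 2, 3, 4, 5, 6, 7, 8, 9, 10, 11},
  {5, 6, 7, 8, 9},
  {4, 5, 6, 9, 13, 14},
  {3, 5, 6, 8, 10, 11},
  {0, 1, 2, 3, 4, 5, 6},
  {0, 1, 2, 4, 7, 9, 13, 14},
  {0, 1, 2, 3, 7, 8, 10, 11}]

/-- the edges leaving the closed sets -/
def bd : Fin 10 → List (Fin 25) := ![[23, 24], [2, 4, 5], [7, 15, 20, 22], [9, 16, 18, 19], [5, 6, 8, 15, 16], [4, 6, 12, 14, 20, 22], [2, 8, 11, 13, 18, 19], [5, 7, 9, 11, 12], [2, 8, 11, 13, 20, 22], [4, 6, 12, 14, 18, 19]]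

theorem src_spec : ∀ (s : Bool) (i : Fin 16) (k : Fin 3),
    (i = (src (eix i k)).1 ∧ k = (src (eix i k)).2) ∨
      (nbr (s, i) k = (s, (src (eix i k)).1) ∧
        nbr (s, (src (eix i k)).1) (src (eix i k)).2 = (s, i)) := by
  decide

theorem bd_spec : ∀ (t : Fin 10) (i : Fin 16), i ∈ Ts t → ∀ k : Fin 3,
    (cr i k = false ∧ nb i k ∈ Ts t) ∨ eix i k ∈ bd t := by
  decide

theorem Ts_ne : ∀ t : Fin 10, (Ts t).Nonempty := by decide

theorem NT (s : Bool) (H : SimpleGraph V) (hH : H ≤ G) (h2 : ∀ i, deg H (s, i) = 2) :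
    ∃ T : Finset (Fin 16), T.Nonempty ∧ ∀ i ∈ T, ∀ w, H.Adj (s, i) w → ∃ j ∈ T, w = (s, j) := by
  classical
  obtain ⟨e, he⟩ : ∃ e : Fin 25 → Bool, ∀ t, e t = decide
      (H.Adj (s, (src t).1) (nbr (s, (src t).1) (src t).2)) := ⟨_, fun _ => rfl⟩
  have hx : ∀ i k, decide (nbr (s, i) k ∈ H.neighborSet (s, i)) = e (eix i k) := by
    intro i k
    rw [he]
    rcases src_spec s i k with ⟨h1, h3⟩ | ⟨h1, h3⟩
    · rw [← h1, ← h3]
      rfl
    · rw [h3, h1]
      simp only [SimpleGraph.mem_neighborSet]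
      rw [H.adj_comm]
  have hN : ∀ i w, H.Adj (s, i) w → ∃ k, w = nbr (s, i) k := by
    intro i w hw
    obtain ⟨k, hk⟩ := hH hw
    exact ⟨k, hk.symm⟩
  have htwo : ∀ i, two (e (eix i 0)) (e (eix i 1)) (e (eix i 2)) := by
    intro i
    rw [← hx, ← hx, ← hx]
    obtain ⟨n1, n2, n3⟩ := nbr_inj (s, i)
    apply two_of_ncard _ _ _ _ _ n1 n2 n3 (h2 i)
    intro w hw
    obtain ⟨k, rfl⟩ := hN i w hw
    fin_cases k <;> simp
  have hk : ∃ t, ∀ x ∈ bd t, e x = false := by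
    have := key
      (e 0) (e 1) (e 2) (htwo 0) (e 3) (e 4) (htwo 1) (e 5) (htwo 2)
      (e 6) (e 7) (htwo 3) (e 8) (e 9) (htwo 4) (e 10) (e 11) (htwo 5)
      (e 12) (htwo 6) (e 13) (e 14) (htwo 7) (e 15) (htwo 8)
      (e 16) (htwo 9) (e 17) (e 18) (htwo 10) (e 19) (htwo 11)
      (e 20) (e 23) (htwo 12) (e 21) (htwo 13) (e 22) (htwo 14)
      (e 24) (htwo 15)
    rcases this with h | h | h | h | h | h | h | h | h | h
    · exact ⟨0, by simpa [bd] using h⟩
    · exact ⟨1, by simpa [bd] using h⟩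
    · exact ⟨2, by simpa [bd] using h⟩
    · exact ⟨3, by simpa [bd] using h⟩
    · exact ⟨4, by simpa [bd] using h⟩
    · exact ⟨5, by simpa [bd] using h⟩
    · exact ⟨6, by simpa [bd] using h⟩
    · exact ⟨7, by simpa [bd] using h⟩
    · exact ⟨8, by simpa [bd] using h⟩
    · exact ⟨9, by simpa [bd] using h⟩
  obtain ⟨t, ht⟩ := hk
  refine ⟨Ts t, Ts_ne t, ?_⟩
  intro i hi w hw
  obtain ⟨k, rfl⟩ := hN i w hw
  rcases bd_spec t i hi k with ⟨h1, h3⟩ | h1
  · refine ⟨nb i k, h3, ?_⟩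
    simp [nbr, h1]
  · exfalso
    have h3 := ht _ h1
    rw [← hx i k] at h3
    have h4 : nbr (s, i) k ∈ H.neighborSet (s, i) := hw
    simp [h4] at h3

theorem G_not_ham : ¬ Hamiltonian G := by
  rintro ⟨S, hSG, hc, h2⟩
  obtain ⟨T, ⟨i, hi⟩, hT⟩ := NT false S hSG (fun i => h2 _)
  refine not_connected_of_closed S {u | u.1 = false ∧ u.2 ∈ T} ?_ (x := (false, i))
    (y := (true, 0)) ⟨rfl, hi⟩ ?_ hc
  · rintro ⟨s, j⟩ ⟨h1, h3⟩ y hy
    simp only at h1 h3
    subst h1
    obtain ⟨l, hl, rfl⟩ := hT j h3 y hy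
    exact ⟨rfl, hl⟩
  · rintro ⟨h1, _⟩
    simp at h1

theorem G_del_not_ham (v : V) : ¬ Hamiltonian (del G v) := by
  rintro ⟨S, hSG, hc, h2⟩
  obtain ⟨H, hH⟩ : ∃ H : SimpleGraph V, H = S.map (Function.Embedding.subtype (· ≠ v)) := ⟨_, rfl⟩
  have hadj : ∀ a b, H.Adj a b ↔ ∃ (ha : a ≠ v) (hb : b ≠ v), S.Adj ⟨a, ha⟩ ⟨b, hb⟩ := by
    intro a b
    rw [hH, SimpleGraph.map_adj]
    constructor
    · rintro ⟨x, y, h, rfl, rfl⟩
      exact ⟨x.2, y.2, h⟩
    · rintro ⟨ha, hb, h⟩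
      exact ⟨_, _, h, rfl, rfl⟩
  have hHG : H ≤ G := by
    intro a b hab
    obtain ⟨ha, hb, h⟩ := (hadj a b).mp hab
    exact hSG h
  have hdeg : ∀ a (ha : a ≠ v), deg H a = deg S ⟨a, ha⟩ := by
    intro a ha
    unfold deg
    have : H.neighborSet a = Subtype.val '' (S.neighborSet ⟨a, ha⟩) := by
      ext b
      rw [SimpleGraph.mem_neighborSet, hadj, Set.mem_image]
      constructor
      · rintro ⟨_, hb, h⟩
        exact ⟨⟨b, hb⟩, h, rfl⟩
      · rintro ⟨b', h, rfl⟩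
        exact ⟨ha, b'.2, h⟩
    rw [this, Set.ncard_image_of_injective _ Subtype.val_injective]
  obtain ⟨s, hs⟩ : ∃ s, s = !v.1 := ⟨_, rfl⟩
  have hsv : ∀ i, ((s, i) : V) ≠ v := by
    intro i h
    rw [← h] at hs
    simp at hs
  obtain ⟨T, ⟨i, hi⟩, hT⟩ := NT s H hHG (fun i => by rw [hdeg _ (hsv i)]; exact h2 _)
  obtain ⟨j, hj⟩ : ∃ j, j ≠ v.2 := exists_ne _
  refine not_connected_of_closed S {u | u.1.1 = s ∧ u.1.2 ∈ T} ?_ (x := ⟨(s, i), hsv i⟩)
    (y := ⟨(v.1, j), ?_⟩) ⟨rfl, hi⟩ ?_ hc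
  · rintro ⟨⟨a, k⟩, ha⟩ ⟨h1, h3⟩ y hy
    simp only at h1 h3
    subst h1
    obtain ⟨l, hl, hyl⟩ := hT k h3 y.1 ((hadj _ _).mpr ⟨ha, y.2, hy⟩)
    show y.1.1 = a ∧ y.1.2 ∈ T
    rw [hyl]
    exact ⟨rfl, hl⟩
  · intro h
    apply hj
    rw [← h]
  · rintro ⟨h1, _⟩
    simp only at h1
    rw [hs] at h1
    simp at h1

/-! ### Hamiltonian paths -/

theorem HPath.of_list {W : Type} [Fintype W] (G : SimpleGraph W) (l : List W) (m : ℕ)
    (hlen : l.length = m + 2) (hcard : Fintype.card W = m + 2) (hnd : l.Nodup)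
    (hch : l.IsChain G.Adj) (p q : W) (h0 : l[0]? = some p) (h1 : l[m + 1]? = some q) :
    HPath G p q := by
  have hf : Function.Bijective (fun i : Fin (m + 2) => l[i.1]'(by omega)) := by
    rw [Fintype.bijective_iff_injective_and_card]
    refine ⟨?_, by simp [hcard]⟩
    intro i j hij
    exact Fin.ext ((List.Nodup.getElem_inj_iff hnd).1 hij)
  refine ⟨m, Equiv.ofBijective _ hf, ?_, ?_, ?_⟩
  · rw [List.getElem?_eq_some_iff] at h0
    obtain ⟨_, h⟩ := h0
    exact h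
  · rw [List.getElem?_eq_some_iff] at h1
    obtain ⟨_, h⟩ := h1
    exact h
  · intro i
    rw [List.isChain_iff_getElem] at hch
    exact hch i.1 (by omega)

theorem HPath.of_list_del {V : Type} [Fintype V] [DecidableEq V] (G : SimpleGraph V) (v : V)
    (l : List V) (m : ℕ) (hlen : l.length = m + 2) (hcard : Fintype.card V = m + 3)
    (hnd : l.Nodup) (hv : ∀ x ∈ l, x ≠ v) (hch : l.IsChain G.Adj) (p q : V) (hp : p ≠ v)
    (hq : q ≠ v) (h0 : l[0]? = some p) (h1 : l[m + 1]? = some q) :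
    HPath (del G v) ⟨p, hp⟩ ⟨q, hq⟩ := by
  have hf : Function.Bijective (fun i : Fin (m + 2) =>
      (⟨l[i.1]'(by omega), hv _ (List.getElem_mem _)⟩ : {w : V // w ≠ v})) := by
    rw [Fintype.bijective_iff_injective_and_card]
    refine ⟨?_, ?_⟩
    · intro i j hij
      rw [Subtype.mk.injEq] at hij
      exact Fin.ext ((List.Nodup.getElem_inj_iff hnd).1 hij)
    · have : Fintype.card {w : V // w ≠ v} = Fintype.card V - 1 := by
        simp [Fintype.card_subtype_compl]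
      rw [this, hcard, Fintype.card_fin]
      rfl
  refine ⟨m, Equiv.ofBijective _ hf, ?_, ?_, ?_⟩
  · rw [List.getElem?_eq_some_iff] at h0
    obtain ⟨_, h⟩ := h0
    exact Subtype.ext h
  · rw [List.getElem?_eq_some_iff] at h1
    obtain ⟨_, h⟩ := h1
    exact Subtype.ext h
  · intro i
    rw [List.isChain_iff_getElem] at hch
    exact hch i.1 (by omega)

/-- the number `16 s + i` encodes the vertex `(s, i)` -/
def dec (n : ℕ) : V := (decide (16 ≤ n), Fin.ofNat 16 n)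

/-- a Hamiltonian path of `G` -/
def pd0 : List V := [2, 0, 1, 4, 6, 8, 7, 9, 5, 3, 11, 10, 15, 14, 13, 12, 28, 27, 19, 16, 17, 20, 22, 21, 25, 29, 30, 31, 26, 24, 23, 18].map dec

/-- Hamiltonian paths of the graphs `G - v` -/
def pd (v : V) : List V := (cond v.1
  (![[2, 0, 1, 4, 6, 8, 7, 9, 5, 3, 11, 10, 15, 14, 13, 12, 28, 29, 25, 23, 24, 22, 21, 19, 27, 26, 31, 30, 20, 17, 18],
  [2, 1, 0, 3, 5, 9, 7, 8, 6, 4, 14, 13, 12, 11, 10, 15, 31, 26, 24, 23, 25, 21, 22, 20, 30, 29, 28, 27, 19, 16, 18],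
  [2, 0, 1, 4, 6, 8, 7, 9, 5, 3, 11, 10, 15, 14, 13, 12, 28, 27, 19, 16, 17, 20, 22, 21, 25, 29, 30, 31, 26, 24, 23],
  [2, 1, 0, 3, 5, 9, 7, 8, 6, 4, 14, 13, 12, 11, 10, 15, 31, 30, 29, 28, 27, 26, 24, 23, 25, 21, 22, 20, 17, 16, 18],
  [2, 0, 1, 4, 6, 8, 7, 9, 5, 3, 11, 10, 15, 14, 13, 12, 28, 27, 26, 31, 30, 29, 25, 23, 24, 22, 21, 19, 16, 17, 18],
  [2, 0, 1, 4, 6, 8, 7, 9, 5, 3, 11, 10, 15, 14, 13, 12, 28, 27, 19, 16, 17, 20, 22, 24, 26, 31, 30, 29, 25, 23, 18],
  [2, 1, 0, 3, 5, 9, 7, 8, 6, 4, 14, 13, 12, 11, 10, 15, 31, 26, 24, 23, 25, 21, 19, 27, 28, 29, 30, 20, 17, 16, 18],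
  [2, 0, 1, 4, 6, 8, 7, 9, 5, 3, 11, 10, 15, 14, 13, 12, 28, 27, 19, 21, 25, 29, 30, 31, 26, 24, 22, 20, 17, 16, 18],
  [2, 0, 1, 4, 6, 8, 7, 9, 5, 3, 11, 10, 15, 14, 13, 12, 28, 29, 30, 31, 26, 27, 19, 16, 17, 20, 22, 21, 25, 23, 18],
  [2, 1, 0, 3, 5, 9, 7, 8, 6, 4, 14, 13, 12, 11, 10, 15, 31, 26, 27, 28, 29, 30, 20, 17, 16, 19, 21, 22, 24, 23, 18],
  [2, 1, 0, 3, 5, 9, 7, 8, 6, 4, 14, 13, 12, 11, 10, 15, 31, 30, 20, 17, 16, 19, 27, 28, 29, 25, 21, 22, 24, 23, 18],
  [2, 0, 1, 4, 6, 8, 7, 9, 5, 3, 11, 10, 15, 14, 13, 12, 28, 29, 25, 23, 24, 26, 31, 30, 20, 22, 21, 19, 16, 17, 18],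
  [2, 1, 0, 3, 5, 9, 7, 8, 6, 4, 14, 13, 12, 11, 10, 15, 31, 26, 27, 19, 16, 17, 20, 30, 29, 25, 21, 22, 24, 23, 18],
  [2, 0, 1, 4, 6, 8, 7, 9, 5, 3, 11, 10, 15, 14, 13, 12, 28, 27, 19, 16, 17, 20, 30, 31, 26, 24, 22, 21, 25, 23, 18],
  [2, 1, 0, 3, 5, 9, 7, 8, 6, 4, 14, 13, 12, 11, 10, 15, 31, 26, 24, 23, 25, 29, 28, 27, 19, 21, 22, 20, 17, 16, 18],
  [2, 0, 1, 4, 6, 8, 7, 9, 5, 3, 11, 10, 15, 14, 13, 12, 28, 27, 26, 24, 22, 21, 19, 16, 17, 20, 30, 29, 25, 23, 18]] v.2)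
  (![[2, 1, 4, 6, 8, 7, 9, 5, 3, 11, 10, 15, 14, 13, 12, 28, 27, 19, 16, 17, 20, 22, 21, 25, 29, 30, 31, 26, 24, 23, 18],
  [2, 0, 3, 5, 9, 7, 8, 6, 4, 14, 13, 12, 11, 10, 15, 31, 26, 24, 23, 25, 21, 22, 20, 30, 29, 28, 27, 19, 16, 17, 18],
  [18, 23, 24, 26, 31, 30, 29, 25, 21, 22, 20, 17, 16, 19, 27, 28, 12, 13, 14, 15, 10, 11, 3, 5, 9, 7, 8, 6, 4, 1, 0],
  [2, 0, 1, 4, 6, 5, 9, 7, 8, 10, 11, 12, 13, 14, 15, 31, 26, 24, 23, 25, 21, 22, 20, 30, 29, 28, 27, 19, 16, 17, 18],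
  [2, 1, 0, 3, 5, 6, 8, 7, 9, 13, 14, 15, 10, 11, 12, 28, 27, 19, 16, 17, 20, 22, 21, 25, 29, 30, 31, 26, 24, 23, 18],
  [2, 1, 0, 3, 11, 10, 15, 14, 4, 6, 8, 7, 9, 13, 12, 28, 27, 19, 16, 17, 20, 22, 21, 25, 29, 30, 31, 26, 24, 23, 18],
  [2, 0, 1, 4, 14, 13, 12, 11, 3, 5, 9, 7, 8, 10, 15, 31, 26, 24, 23, 25, 21, 22, 20, 30, 29, 28, 27, 19, 16, 17, 18],
  [2, 0, 1, 4, 6, 8, 10, 15, 14, 13, 9, 5, 3, 11, 12, 28, 27, 19, 16, 17, 20, 22, 21, 25, 29, 30, 31, 26, 24, 23, 18],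
  [2, 7, 9, 5, 6, 4, 1, 0, 3, 11, 10, 15, 14, 13, 12, 28, 27, 19, 16, 17, 20, 22, 21, 25, 29, 30, 31, 26, 24, 23, 18],
  [2, 7, 8, 6, 5, 3, 0, 1, 4, 14, 13, 12, 11, 10, 15, 31, 26, 24, 23, 25, 21, 22, 20, 30, 29, 28, 27, 19, 16, 17, 18],
  [2, 0, 1, 4, 6, 8, 7, 9, 5, 3, 11, 12, 13, 14, 15, 31, 26, 24, 23, 25, 21, 22, 20, 30, 29, 28, 27, 19, 16, 17, 18],
  [2, 1, 0, 3, 5, 6, 4, 14, 15, 10, 8, 7, 9, 13, 12, 28, 27, 19, 16, 17, 20, 22, 21, 25, 29, 30, 31, 26, 24, 23, 18],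
  [2, 0, 1, 4, 6, 5, 3, 11, 10, 8, 7, 9, 13, 14, 15, 31, 26, 24, 23, 25, 21, 22, 20, 30, 29, 28, 27, 19, 16, 17, 18],
  [2, 1, 0, 3, 5, 9, 7, 8, 6, 4, 14, 15, 10, 11, 12, 28, 27, 19, 16, 17, 20, 22, 21, 25, 29, 30, 31, 26, 24, 23, 18],
  [2, 0, 1, 4, 6, 5, 3, 11, 12, 13, 9, 7, 8, 10, 15, 31, 26, 24, 23, 25, 21, 22, 20, 30, 29, 28, 27, 19, 16, 17, 18],
  [2, 1, 0, 3, 5, 6, 4, 14, 13, 9, 7, 8, 10, 11, 12, 28, 27, 19, 16, 17, 20, 22, 21, 25, 29, 30, 31, 26, 24, 23, 18]] v.2)).map dec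

set_option maxRecDepth 100000 in
theorem pd0_spec : pd0.length = 32 ∧ pd0.Nodup ∧ pd0.IsChain G.Adj ∧
    pd0[0]? = some (false, 2) ∧ pd0[31]? = some (true, 2) := by
  decide +kernel

set_option maxRecDepth 100000 in
theorem pd_spec : ∀ v : V, (pd v).length = 31 ∧ (pd v).Nodup ∧ (∀ x ∈ pd v, x ≠ v) ∧
    (pd v).IsChain G.Adj := by
  decide +kernel

set_option maxRecDepth 100000 in
theorem pd_ends : ∀ v : V, (false, 2) ≠ v → (true, 2) ≠ v →
    (pd v)[0]? = some (false, 2) ∧ (pd v)[30]? = some (true, 2) := by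
  decide +kernel

theorem hp0 : HPath G (false, 2) (true, 2) := by
  obtain ⟨h1, h2, h3, h4, h5⟩ := pd0_spec
  exact HPath.of_list G pd0 30 h1 rfl h2 h3 _ _ h4 h5

theorem hpv (v p q : V) (hp : p ≠ v) (hq : q ≠ v) (h0 : (pd v)[0]? = some p)
    (h1 : (pd v)[30]? = some q) : HPath (del G v) ⟨p, hp⟩ ⟨q, hq⟩ := by
  obtain ⟨h2, h3, h4, h5⟩ := pd_spec v
  exact HPath.of_list_del G v (pd v) 29 h2 rfl h3 h4 h5 p q hp hq h0 h1

theorem hpp : HPath (del G (false, 2)) ⟨(true, 2), by decide⟩ ⟨(false, 0), by decide⟩ :=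
  hpv (false, 2) (true, 2) (false, 0) _ _ (by decide +kernel) (by decide +kernel)

theorem hpq : HPath (del G (true, 2)) ⟨(false, 2), by decide⟩ ⟨(true, 7), by decide⟩ :=
  hpv (true, 2) (false, 2) (true, 7) _ _ (by decide +kernel) (by decide +kernel)

theorem G_del_connected (v : V) : (del G v).Connected := by
  by_cases h1 : (false, 2) = v
  · subst h1
    exact hpp.connected
  · by_cases h2 : (true, 2) = v
    · subst h2
      exact hpq.connected
    · exact (hpv v _ _ h1 h2 (pd_ends v h1 h2).1 (pd_ends v h1 h2).2).connected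

/-- There is a cubic, 2-connected graph (with `32` vertices) of fault cost `1`. -/
theorem result : ∃ (V : Type) (_ : Fintype V) (G : SimpleGraph V),
    Fintype.card V = 32 ∧ (∀ v, deg G v = 3) ∧ G.Connected ∧ (∀ v, (del G v).Connected) ∧
      phi G = 1 :=
  ⟨V, inferInstance, G, rfl, G_deg, hp0.connected, G_del_connected,
    phi_eq_one G (false, 2) (true, 2) (by decide) G_not_ham G_del_not_ham hp0 ⟨_, hpp⟩ ⟨_, hpq⟩
      (fun v h1 h2 => hpv v _ _ h1 h2 (pd_ends v h1 h2).1 (pd_ends v h1 h2).2)⟩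

end Pool.Agent.Results.MP_54aac5_co.CubicOne
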