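import Pool.Agent.R891.FC4

/-!
# MP_54aac5_co, Q1: a cubic 2-connected graph with fault cost 1

There is a simple, finite, 2-connected (connected, and connected after the deletion of any
vertex) cubic graph `G` (on 36 vertices) with fault cost `φ(G) = 1`.

Definitions (`Pool/Agent/R891/FC1.lean`): `del G v` (`G - v`), `deg`, `leaves`, `IsHamCycle`,
`Ham`, `IsSpanTree`, `ml`, `IsMl`, `tau` (transition cost), `phiS`, `phi` (fault cost).
-/

namespace Pool.Agent.Results.MP_54aac5_co.FaultCostOne

open Pool.Agent.R891.FC

/-- There is a cubic 2-connected graph with fault cost exactly 1. -/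
theorem result : ∃ G : SimpleGraph (Fin 36),
    (∀ v, deg G v = 3) ∧ G.Connected ∧ (∀ v, (del G v).Connected) ∧ phi G = 1 :=
  ⟨GG, deg_GG, conn_GG, conn_del, phi_GG⟩

end Pool.Agent.Results.MP_54aac5_co.FaultCostOne
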